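import Pool.Agent.H93.DE.Defs

/-!
# Targets: the conditional entropy decrement argument (MP_c59857_nt)
-/

set_option autoImplicit false

namespace Pool.Agent.H93.DE

open Finset Pool.Agent.H18.MR

/-- (PIL) many primes in an octave. -/
def T_PIL : Prop := ∃ (c : ℝ) (m₀ : ℕ), 0 < c ∧ ∀ m, m₀ ≤ m →
  c * 2 ^ m / m ≤ ((oct m).card : ℝ)

/-- (UNI) the uniform law on `ZMod N`: translation invariance and the law of a residue. -/
def T_UNI : Prop :=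
  (∀ (γ : Type) [Fintype γ] [DecidableEq γ] (N : ℕ) [NeZero N] (X : ZMod N → γ) (k : ZMod N),
    ent (unif N) (fun n => X (n + k)) = ent (unif N) X) ∧
  (∀ (N M : ℕ) [NeZero N] [NeZero M], M ∣ N →
    (∀ r, law (unif N) (fun n => rs N M n) r = 1 / M) ∧
      ent (unif N) (fun n => rs N M n) = Real.log M)

/-- (DCR) one step of the decrement: subadditivity given the residue. -/
def T_DCR : Prop :=
  ∀ (γ : Type) [Fintype γ] [DecidableEq γ] (N M P L : ℕ) [NeZero N] (x : ZMod N → γ),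
    0 < M → 0 < P → Nat.Coprime M P → M * P ∣ N →
    hc x (2 * L) (M * P) ≤ 2 * (hc x L M - info x L M P)

/-- (SUM) all octaves together. -/
def T_SUM : Prop :=
  ∀ (γ : Type) [Fintype γ] [DecidableEq γ] (N a b Q : ℕ) [NeZero N] (x : ZMod N → γ),
    0 < Q → a ≤ b → primorial (2 ^ b) ∣ N →
    ∑ m ∈ Ico a b, info x (Q * 2 ^ m) (primorial (2 ^ m)) (pr m) / (Q * 2 ^ m) ≤
      ent (unif N) (fun n => wd x (Q * 2 ^ a) n) / (Q * 2 ^ a)

/-- (EVT) an event which is rare under independence is rare if the information is small. -/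
def T_EVT : Prop :=
  ∀ (Ω α β : Type) [Fintype α] [DecidableEq α] [Fintype β] [DecidableEq β] (μ : FAP Ω)
    (X : Ω → α) (Y : Ω → β) (E : α → β → Prop) [∀ a b, Decidable (E a b)] (q : ℝ),
    0 < q → q < 1 → (∀ a, ∑ b, law μ Y b * (if E a b then 1 else 0) ≤ q) →
    μ.P {ω | E (X ω) (Y ω)} * Real.log (1 / q) ≤ mi μ X Y + Real.log 2

/-- (HOE) Hoeffding's inequality for residues modulo different primes. -/
def T_HOE : Prop :=
  ∀ (Q : Finset ℕ) (t : ℕ → ℕ → ℝ) (B s : ℝ), (∀ p ∈ Q, p.Prime) → 0 < B → 0 ≤ s →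
    (∀ p ∈ Q, ∀ r, r < p → |t p r| ≤ B) → (∀ p ∈ Q, ∑ r ∈ range p, t p r = 0) →
    (((range (∏ p ∈ Q, p)).filter (fun r => s < |∑ p ∈ Q, t p (r % p)|)).card : ℝ) ≤
      2 * Real.exp (-(s ^ 2 / (2 * B ^ 2 * Q.card))) * ∏ p ∈ Q, (p : ℝ)

/-- (BAD) the bad places of one octave. -/
def T_BAD : Prop :=
  ∀ (γ : Type) [Fintype γ] [DecidableEq γ] (N K D m : ℕ) [NeZero N] (x : ZMod N → γ) (ε : ℝ)
    (G : Fin (2 ^ (D * m)) → ℕ → ℕ → (Fin (2 * K * 2 ^ m) → γ) → ℝ), 0 < ε → 0 < K →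
    (∀ i p j w, |G i p j w| ≤ 1) → primorial (2 ^ (m + 1)) ∣ N →
    0 < ε ^ 2 * (oct m).card / 32 - Real.log 2 * (D * m + 1) →
    (unif N).P {n | BadZ x ε K D m G n} *
        (ε ^ 2 * (oct m).card / 32 - Real.log 2 * (D * m + 1)) ≤
      info x (2 * K * 2 ^ m) (primorial (2 ^ m)) (pr m) + Real.log 2

/-- (CRD) the entropy of the words of a cell field. -/
def T_CRD : Prop :=
  ∀ (N S A L : ℕ) [NeZero N] [NeZero S] (c : ℕ → Fin A), S ∣ N →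
    ent (unif N) (fun n => wd (fun k : ZMod N => fld S c k.val) L n) ≤
      Real.log S + ((L : ℝ) / S + 2) * Real.log A

/-- (CYC) the decoupling on the cyclic group. -/
def T_CYC : Prop :=
  ∀ (ε : ℝ) (K D : ℕ), 0 < ε → 0 < K → ∃ (C : ℝ) (m₀ : ℕ), 0 < C ∧
    ∀ (N S A a b : ℕ) [NeZero N] [NeZero S] (c : ℕ → Fin A)
      (G : (m : ℕ) → Fin (2 ^ (D * m)) → ℕ → ℕ → (Fin (2 * K * 2 ^ m) → Fin A × Fin S) → ℝ),
      m₀ ≤ a → a ≤ b → primorial (2 ^ b) ∣ N → S ∣ N → (∀ m i p j w, |G m i p j w| ≤ 1) →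
      ∑ m ∈ Ico a b, (unif N).P {n | BadZ (fun k : ZMod N => fld S c k.val) ε K D m (G m) n} / m ≤
        C * (Real.log A / S + (Real.log S + 2 * Real.log A + 1) / 2 ^ a)

open Classical in
/-- (DEC) the decoupling over the integers with logarithmic weights. -/
def T_DEC : Prop :=
  ∀ (ε : ℝ) (K D : ℕ), 0 < ε → 0 < K → ∃ (η c₁ : ℝ), 0 < η ∧ 0 < c₁ ∧
    ∀ (S A : ℕ) [NeZero S], Real.log A ≤ η * S → ∃ (m₁ X₀ : ℕ), ∀ X, X₀ ≤ X →
      ∀ M : ℕ, (2 : ℝ) ^ M ≤ c₁ * Real.log X → ∀ (c : ℕ → Fin A)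
      (G : (m : ℕ) → Fin (2 ^ (D * m)) → ℕ → ℕ → (Fin (2 * K * 2 ^ m) → Fin A × Fin S) → ℝ),
      (∀ m i p j w, |G m i p j w| ≤ 1) → ∃ a : ℕ → ℝ, (∀ m, 0 ≤ a m) ∧
        ∑ m ∈ Ico m₁ M, a m / m ≤ ε ∧ ∀ m ∈ Ico m₁ M,
          ∑ n ∈ (Icc 1 X).filter (fun n => Bad S c ε K D m (G m) n), (1 : ℝ) / n ≤
            (ε + a m) * Real.log X

end Pool.Agent.H93.DE
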