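import Pool.Agent.H18.AG.VDY
import Pool.Agent.H93.DE.Targets

/-! (PIL) many primes in an octave. -/

set_option autoImplicit false

namespace Pool.Agent.H93.DE

theorem pf_PIL : T_PIL := by
  obtain ⟨c, hc, m₀, h⟩ := Pool.Agent.H18.AG.pf_VDY
  exact ⟨c, m₀, hc, h⟩

end Pool.Agent.H93.DE
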