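import Pool.Agent.H93.DE.All

/-!
# The conditional entropy decrement argument for arbitrary fields (MP_c59857_nt)
-/

set_option autoImplicit false

namespace Pool.Agent.H93.DE

open Finset Pool.Agent.H18.MR Pool.Agent.H62.DE Pool.Agent.H62.DE.DECx

open Classical in
/-- (DEC2) the decoupling over the integers with logarithmic weights, for an arbitrary field. -/
def T_DEC2 : Prop :=
  ∀ (ε : ℝ) (K D : ℕ), 0 < ε → 0 < K → ∀ (S A : ℕ) [NeZero S],
    ∃ (C c₁ : ℝ) (m₁ X₀ : ℕ), 0 < C ∧ 0 < c₁ ∧ ∀ X, X₀ ≤ X →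
      ∀ M : ℕ, (2 : ℝ) ^ M ≤ c₁ * Real.log X → ∀ (c : ℕ → Fin A)
      (G : (m : ℕ) → Fin (2 ^ (D * m)) → ℕ → ℕ → (Fin (2 * K * 2 ^ m) → Fin A × Fin S) → ℝ),
      (∀ m i p j w, |G m i p j w| ≤ 1) → ∃ a : ℕ → ℝ, (∀ m, 0 ≤ a m) ∧
        ∑ m ∈ Ico m₁ M, a m / m ≤ C ∧ ∀ m ∈ Ico m₁ M,
          ∑ n ∈ (Icc 1 X).filter (fun n => Bad S c ε K D m (G m) n), (1 : ℝ) / n ≤
            (ε + a m) * Real.log X

/-- DEC2 -/
theorem dec2 : T_DEC2 := by
  classical
  intro ε K D hε hK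
  obtain ⟨C, m₀, hC, hcyc⟩ := cyc ε K D hε hK
  intro S A _
  have hSpos : 0 < S := Nat.pos_of_ne_zero (NeZero.ne S)
  have hS' : (0 : ℝ) < S := by exact_mod_cast hSpos
  set W : ℝ := Real.log S + 2 * Real.log A + 1 with hW
  have hW0 : 0 ≤ W := by
    have h1 := Real.log_natCast_nonneg S
    have h2 := Real.log_natCast_nonneg A
    rw [hW]; linarith
  have hB0 : 0 ≤ Real.log A / S + W / 2 ^ m₀ := by
    have h2 := Real.log_natCast_nonneg A
    positivity
  set m₁ := m₀ with hm₁0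
  have hm₁ : m₀ ≤ m₁ := le_rfl
  obtain ⟨q₀, hq₀⟩ := exists_nat_ge (4 / ε)
  have hq₀pos : 0 < q₀ := by
    have : (0 : ℝ) < q₀ := lt_of_lt_of_le (by positivity) hq₀
    exact_mod_cast this
  have hq₀' : (1 : ℝ) / q₀ ≤ ε / 4 := by
    have h1 : (0 : ℝ) < q₀ := by exact_mod_cast hq₀pos
    rw [div_le_iff₀ h1]
    rw [div_le_iff₀ hε] at hq₀
    linarith
  set R : ℝ := Real.log ((2 * K * S * q₀ : ℕ) : ℝ) with hR
  refine ⟨2 * (C * (Real.log A / S + W / 2 ^ m₀)) + 1, ε / 64, m₁,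
    ⌈Real.exp (max 1 (max (4 / ε) (8 * R / ε)))⌉₊, by positivity, by positivity,
    fun X hX M hM c G hG => ?_⟩
  -- the size of `X`
  have hX1 : Real.exp (max 1 (max (4 / ε) (8 * R / ε))) ≤ X :=
    (Nat.le_ceil _).trans (by exact_mod_cast hX)
  have hXpos : (0 : ℝ) < X := (Real.exp_pos _).trans_le hX1
  have hlX : max 1 (max (4 / ε) (8 * R / ε)) ≤ Real.log X := by
    rw [Real.le_log_iff_exp_le hXpos]
    exact hX1
  have hlX1 : 1 ≤ Real.log X := (le_max_left _ _).trans hlX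
  have hlX2 : 4 / ε ≤ Real.log X := (le_max_left _ _).trans ((le_max_right _ _).trans hlX)
  have hlX3 : 8 * R / ε ≤ Real.log X := (le_max_right _ _).trans ((le_max_right _ _).trans hlX)
  rw [div_le_iff₀ hε] at hlX2 hlX3
  by_cases hMm : M ≤ m₁
  · refine ⟨fun _ => 0, fun _ => le_rfl, ?_, fun m hm => ?_⟩
    · rw [Ico_eq_empty_of_le hMm]
      simp only [sum_empty]
      positivity
    · rw [Ico_eq_empty_of_le hMm] at hm
      simp at hm
  rw [not_le] at hMm
  set N' : ℕ := primorial (2 ^ M) * (2 * K * 2 ^ M) * q₀ with hN'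
  set N : ℕ := N' * S with hN
  have hpp : 0 < primorial (2 ^ M) := primorial_pos _
  have hN'pos : 0 < N' := by positivity
  have hNpos : 0 < N := by positivity
  haveI : NeZero N := ⟨hNpos.ne'⟩
  have hprN : primorial (2 ^ M) ∣ N := by
    rw [hN, hN', mul_assoc, mul_assoc]
    exact Dvd.intro _ rfl
  have hSN : S ∣ N := Dvd.intro_left _ rfl
  have hoct : ∀ m ∈ Ico m₁ M, ∀ p ∈ oct m, p ∣ N := by
    intro m hm p hp
    refine Dvd.dvd.trans ?_ hprN
    unfold oct at hp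
    rw [mem_filter, mem_Ioc] at hp
    rw [mem_Ico] at hm
    rw [primorial]
    apply Finset.dvd_prod_of_mem
    rw [mem_filter, mem_range]
    refine ⟨?_, hp.2⟩
    have : 2 ^ (m + 1) ≤ 2 ^ M := Nat.pow_le_pow_right (by norm_num) (by omega)
    omega
  let b : ℕ → ℕ → ℝ := fun m k => (unif N).P {n | BadZ (fun z : ZMod N =>
    fld S (fun i => c (k * N' + i)) z.val) ε K D m (G m) n}
  have hb0 : ∀ m k, 0 ≤ b m k := fun m k => P_nonneg _
  have hbsum : ∀ k, ∑ m ∈ Ico m₁ M, b m k / m ≤ C * (Real.log A / S + W / 2 ^ m₀) := by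
    intro k
    exact hcyc N S A m₁ M (fun i => c (k * N' + i)) G hm₁ hMm.le hprN hSN hG
  -- the weights
  refine ⟨fun m => (∑ k ∈ range X, b m (k + 1) / ((k : ℝ) + 1)) / Real.log X, fun m => ?_, ?_, ?_⟩
  · apply div_nonneg _ (by linarith)
    exact sum_nonneg fun k _ => div_nonneg (hb0 _ _) (by positivity)
  · have h1 : ∑ m ∈ Ico m₁ M, (∑ k ∈ range X, b m (k + 1) / ((k : ℝ) + 1)) / Real.log X / m =
        (∑ k ∈ range X, (∑ m ∈ Ico m₁ M, b m (k + 1) / m) * (1 / ((k : ℝ) + 1))) /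
          Real.log X := by
      simp only [sum_mul, sum_div]
      rw [sum_comm]
      apply sum_congr rfl
      intro k _
      apply sum_congr rfl
      intro m _
      ring
    rw [h1, div_le_iff₀ (by linarith)]
    calc ∑ k ∈ range X, (∑ m ∈ Ico m₁ M, b m (k + 1) / m) * (1 / ((k : ℝ) + 1))
        ≤ ∑ k ∈ range X, (C * (Real.log A / S + W / 2 ^ m₀)) * (1 / ((k : ℝ) + 1)) := by
          apply sum_le_sum
          intro k _
          exact mul_le_mul_of_nonneg_right (hbsum (k + 1)) (by positivity)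
      _ = (C * (Real.log A / S + W / 2 ^ m₀)) * ∑ k ∈ range X, 1 / ((k : ℝ) + 1) := by
          rw [mul_sum]
      _ ≤ (C * (Real.log A / S + W / 2 ^ m₀)) * (1 + Real.log X) :=
          mul_le_mul_of_nonneg_left (harm X) (by positivity)
      _ ≤ (2 * (C * (Real.log A / S + W / 2 ^ m₀)) + 1) * Real.log X := by
          have h5 : 0 ≤ C * (Real.log A / S + W / 2 ^ m₀) := by positivity
          nlinarith
  · intro m hm
    have hm' := mem_Ico.1 hm
    have hqN : 2 * K * 2 ^ m * q₀ ≤ N := by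
      have h1 : 2 ^ m ≤ 2 ^ M := Nat.pow_le_pow_right (by norm_num) hm'.2.le
      calc 2 * K * 2 ^ m * q₀ ≤ 2 * K * 2 ^ M * q₀ := by gcongr
        _ = 1 * (2 * K * 2 ^ M) * q₀ * 1 := by ring
        _ ≤ primorial (2 ^ M) * (2 * K * 2 ^ M) * q₀ * S := by gcongr <;> omega
    have hblock := blocks ((Icc 1 X).filter fun n => Bad S c ε K D m (G m) n) X N hNpos
      (filter_subset _ _) (fun k => b m k + 1 / q₀) (fun k _ => by
        exact block_card S N' k X N hN c ε K D m (G m) (hoct m hm) q₀ hq₀pos hqN)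
    refine hblock.trans ?_
    have h2 : ∑ k ∈ range X, (b m (k + 1) + 1 / q₀) / ((k : ℝ) + 1) =
        ∑ k ∈ range X, b m (k + 1) / ((k : ℝ) + 1) +
          (1 / q₀) * ∑ k ∈ range X, 1 / ((k : ℝ) + 1) := by
      rw [mul_sum, ← sum_add_distrib]
      apply sum_congr rfl
      intro k _
      ring
    rw [h2]
    have h3 : (1 / (q₀ : ℝ)) * ∑ k ∈ range X, 1 / ((k : ℝ) + 1) ≤ (ε / 4) * (1 + Real.log X) :=
      mul_le_mul hq₀' (harm X) (sum_nonneg fun _ _ => by positivity) (by positivity)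
    -- the size of `N`
    have h4 : Real.log N ≤ 3 * 2 ^ M + R := by
      have e1 : (N : ℝ) = (primorial (2 ^ M) : ℝ) * (2 ^ M * ((2 * K * S * q₀ : ℕ) : ℝ)) := by
        rw [hN, hN']
        push_cast
        ring
      have e2 : (0 : ℝ) < primorial (2 ^ M) := by exact_mod_cast hpp
      have e3 : (0 : ℝ) < ((2 * K * S * q₀ : ℕ) : ℝ) := by
        have : 0 < 2 * K * S * q₀ := by positivity
        exact_mod_cast this
      rw [e1, Real.log_mul e2.ne' (by positivity), Real.log_mul (by positivity) e3.ne',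
        Real.log_pow]
      have e4 := log_primorial M
      have e5 : (M : ℝ) * Real.log 2 ≤ 2 ^ M := by
        have e6 : (M : ℝ) ≤ 2 ^ M := by exact_mod_cast Nat.lt_two_pow_self.le
        have e7 : Real.log 2 ≤ 1 := by linarith [Real.log_two_lt_d9]
        calc (M : ℝ) * Real.log 2 ≤ M * 1 := mul_le_mul_of_nonneg_left e7 (Nat.cast_nonneg _)
          _ ≤ 2 ^ M := by rw [mul_one]; exact e6
      linarith
    have h5 : (∑ k ∈ range X, b m (k + 1) / ((k : ℝ) + 1)) =
        (∑ k ∈ range X, b m (k + 1) / ((k : ℝ) + 1)) / Real.log X * Real.log X := by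
      field_simp
    rw [add_mul, ← h5]
    nlinarith

end Pool.Agent.H93.DE
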