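import Pool.Agent.H8.DE.Targets

/-!
# Loops over tuples
-/

set_option autoImplicit false

namespace Pool.Agent.H93.DE

open Pool.Agent.H8.DE

/-- the tuples of length `j` -/
def tup (N : ℕ) : ℕ → List (List ℕ)
  | 0 => [[]]
  | j + 1 => (List.range N).flatMap fun b => (tup N j).map fun l => l ++ [b]

theorem mem_tup (N : ℕ) : ∀ (j : ℕ) (l : List ℕ), l ∈ tup N j ↔ l.length = j ∧ ∀ x ∈ l, x < N
  | 0, l => by
    constructor
    · intro h
      obtain rfl := List.mem_singleton.1 h
      exact ⟨rfl, fun x hx => absurd hx List.not_mem_nil⟩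
    · rintro ⟨h, -⟩
      obtain rfl := List.length_eq_zero_iff.1 h
      exact List.mem_singleton.2 rfl
  | j + 1, l => by
    show l ∈ ((List.range N).flatMap fun b => (tup N j).map fun l => l ++ [b]) ↔ _
    rw [List.mem_flatMap]
    constructor
    · rintro ⟨b, hb, h⟩
      obtain ⟨l', hl', rfl⟩ := List.mem_map.1 h
      obtain ⟨h1, h2⟩ := (mem_tup N j l').1 hl'
      refine ⟨by rw [List.length_append, h1]; rfl, fun x hx => ?_⟩
      rcases List.mem_append.1 hx with hx | hx
      · exact h2 x hx
      · obtain rfl := List.mem_singleton.1 hx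
        exact List.mem_range.1 hb
    · rintro ⟨h1, h2⟩
      have h3 : l ≠ [] := by
        rintro rfl
        exact absurd h1 (by simp)
      refine ⟨l.getLast h3, List.mem_range.2 (h2 _ (List.getLast_mem h3)), ?_⟩
      refine List.mem_map.2 ⟨l.dropLast, (mem_tup N j _).2 ⟨?_, fun x hx => ?_⟩,
        List.dropLast_append_getLast h3⟩
      · rw [List.length_dropLast, h1]
        rfl
      · exact h2 x (List.mem_of_mem_dropLast hx)

/-- the loops -/
def Pj (m : ℕ) (q : P1) : ℕ → P1
  | 0 => q
  | j + 1 => .seq (.zer (j + 1)) (.lp m (.seq (Pj m q j) (.suc (j + 1))))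

section

variable {a m : ℕ} {q : P1} {B N n : ℕ} {G : List ℕ → (ℕ → Bool) → ℕ → Bool}

/-- the outer variables -/
def out (a j : ℕ) (v : ℕ → ℕ) : List ℕ := (List.range (a - j)).map fun i => v (j + 1 + i)

theorem out_succ (j : ℕ) (hj : j < a) (v : ℕ → ℕ) : out a j v = v (j + 1) :: out a (j + 1) v := by
  unfold out
  have h1 : a - j = (a - (j + 1)) + 1 := by omega
  rw [h1, List.range_succ_eq_map, List.map_cons, List.map_map]
  refine congrArg₂ List.cons rfl (List.map_congr_left fun i _ => ?_)
  show v (j + 1 + (i + 1)) = v (j + 1 + 1 + i)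
  congr 1
  omega

theorem out_congr {j : ℕ} {v v' : ℕ → ℕ} (h : ∀ x, j < x → x ≤ a → v x = v' x) :
    out a j v = out a j v' := by
  unfold out
  refine List.map_congr_left fun i hi => ?_
  have := List.mem_range.1 hi
  exact h _ (by omega) (by omega)

theorem main (ham : a < m) (hN : N ≤ B)
    (hq : ∀ σ : Z1, σ.v 0 = n → σ.v m = N → (∀ x, 1 ≤ x → x ≤ a → σ.v x < N) →
      (run B q σ).tb = G ((List.range a).map fun j => σ.v (j + 1)) σ.tb ∧
        (∀ i ≤ a, (run B q σ).v i = σ.v i) ∧ (run B q σ).v m = N) :
    ∀ j ≤ a, ∀ σ : Z1, σ.v 0 = n → σ.v m = N → (∀ x, j < x → x ≤ a → σ.v x < N) →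
      (run B (Pj m q j) σ).tb = (tup N j).foldl (fun tb l => G (l ++ out a j σ.v) tb) σ.tb ∧
        (run B (Pj m q j) σ).v 0 = n ∧ (run B (Pj m q j) σ).v m = N ∧
          ∀ x, j < x → x ≤ a → (run B (Pj m q j) σ).v x = σ.v x := by
  intro j
  induction j with
  | zero =>
    intro _ σ h0 hm hx
    obtain ⟨h1, h2, h3⟩ := hq σ h0 hm fun x hx1 hx2 => hx x hx1 hx2
    refine ⟨?_, (h2 0 (Nat.zero_le _)).trans h0, h3, fun x _ hxa => h2 x hxa⟩
    show (run B q σ).tb = G ([] ++ out a 0 σ.v) σ.tb
    rw [h1, List.nil_append]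
    unfold out
    congr 1
    refine List.map_congr_left fun i _ => ?_
    congr 1
    omega
  | succ j ih =>
    intro hj σ h0 hm hx
    have ih' := ih (by omega)
    set σ₀ : Z1 := ⟨Function.update σ.v (j + 1) 0, σ.tb⟩ with hσ₀
    have hmj : m ≠ j + 1 := by omega
    have hrun : run B (Pj m q (j + 1)) σ =
        (run B (.seq (Pj m q j) (.suc (j + 1))))^[N] σ₀ := by
      show (run B (.seq (Pj m q j) (.suc (j + 1))))^[(Function.update σ.v (j + 1) 0) m] σ₀ = _
      rw [Function.update_of_ne hmj, hm]
    rw [hrun]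
    have key : ∀ c ≤ N, ((run B (.seq (Pj m q j) (.suc (j + 1))))^[c] σ₀).tb =
        ((List.range c).flatMap fun b => (tup N j).map fun l => l ++ [b]).foldl
          (fun tb l => G (l ++ out a (j + 1) σ.v) tb) σ.tb ∧
        ((run B (.seq (Pj m q j) (.suc (j + 1))))^[c] σ₀).v 0 = n ∧
        ((run B (.seq (Pj m q j) (.suc (j + 1))))^[c] σ₀).v m = N ∧
        ((run B (.seq (Pj m q j) (.suc (j + 1))))^[c] σ₀).v (j + 1) = c ∧
        ∀ x, j + 1 < x → x ≤ a →
          ((run B (.seq (Pj m q j) (.suc (j + 1))))^[c] σ₀).v x = σ.v x := by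
      intro c
      induction c with
      | zero =>
        intro _
        refine ⟨rfl, ?_, ?_, ?_, fun x hx1 _ => ?_⟩
        · show Function.update σ.v (j + 1) 0 0 = n
          rw [Function.update_of_ne (by omega), h0]
        · show Function.update σ.v (j + 1) 0 m = N
          rw [Function.update_of_ne hmj, hm]
        · show Function.update σ.v (j + 1) 0 (j + 1) = 0
          rw [Function.update_self]
        · show Function.update σ.v (j + 1) 0 x = σ.v x
          rw [Function.update_of_ne (by omega)]
      | succ c ihc =>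
        intro hc
        obtain ⟨h1, h2, h3, h4, h5⟩ := ihc (by omega)
        rw [Function.iterate_succ_apply']
        set τ := (run B (.seq (Pj m q j) (.suc (j + 1))))^[c] σ₀ with hτ
        have hlt : ∀ x, j < x → x ≤ a → τ.v x < N := by
          intro x hx1 hx2
          rcases eq_or_ne x (j + 1) with rfl | hne
          · rw [h4]
            omega
          · rw [h5 x (by omega) hx2]
            exact hx x (by omega) hx2
        obtain ⟨k1, k2, k3, k4⟩ := ih' τ h2 h3 hlt
        have hr : run B (.seq (Pj m q j) (.suc (j + 1))) τ =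
            ⟨Function.update (run B (Pj m q j) τ).v (j + 1)
              (min ((run B (Pj m q j) τ).v (j + 1) + 1) B), (run B (Pj m q j) τ).tb⟩ := rfl
        rw [hr]
        refine ⟨?_, ?_, ?_, ?_, fun x hx1 hx2 => ?_⟩
        · show (run B (Pj m q j) τ).tb = _
          rw [k1, h1, List.range_succ, List.flatMap_append, List.foldl_append]
          have h6 : (List.flatMap (fun b => (tup N j).map fun l => l ++ [b]) [c]) =
              (tup N j).map fun l => l ++ [c] := by
            simp
          rw [h6, List.foldl_map, out_succ j (by omega), h4]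
          have h7 : out a (j + 1) τ.v = out a (j + 1) σ.v := out_congr fun x hx1 hx2 =>
            h5 x hx1 hx2
          rw [h7]
          congr 1
          funext tb l
          rw [List.append_assoc]
          rfl
        · show Function.update (run B (Pj m q j) τ).v (j + 1)
            (min ((run B (Pj m q j) τ).v (j + 1) + 1) B) 0 = n
          rw [Function.update_of_ne (by omega), k2]
        · show Function.update (run B (Pj m q j) τ).v (j + 1)
            (min ((run B (Pj m q j) τ).v (j + 1) + 1) B) m = N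
          rw [Function.update_of_ne hmj, k3]
        · show Function.update (run B (Pj m q j) τ).v (j + 1)
            (min ((run B (Pj m q j) τ).v (j + 1) + 1) B) (j + 1) = c + 1
          rw [Function.update_self, k4 (j + 1) (by omega) hj, h4]
          omega
        · show Function.update (run B (Pj m q j) τ).v (j + 1)
            (min ((run B (Pj m q j) τ).v (j + 1) + 1) B) x = σ.v x
          rw [Function.update_of_ne (by omega), k4 x (by omega) hx2, h5 x hx1 hx2]
    obtain ⟨h1, h2, h3, -, h5⟩ := key N le_rfl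
    exact ⟨h1, h2, h3, h5⟩

end

theorem pf_TL : D_TL := by
  intro a m q ham
  refine ⟨Pj m q a, fun B N n G hN hq => ⟨tup N a, mem_tup N a, fun σ h0 hm => ?_⟩⟩
  obtain ⟨h1, h2, h3, -⟩ := main ham hN hq a le_rfl σ h0 hm fun x hx1 hx2 => by omega
  refine ⟨?_, h2, h3⟩
  rw [h1]
  congr 1
  funext tb l
  have h4 : out a a σ.v = [] := by
    unfold out
    rw [Nat.sub_self]
    rfl
  rw [h4, List.append_nil]

end Pool.Agent.H93.DE
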