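import Pool.Agent.H93.DE.Targets
import Pool.Agent.H93.DE.PIL
import Pool.Agent.H62.DE.BAD
import Pool.Agent.H62.DE.DEC
import Pool.Agent.H94.DE.CRD
import Pool.Agent.H94.DE.CYC
import Pool.Agent.H94.DE.EVT
import Pool.Agent.H46.DE.DCR
import Pool.Agent.H46.DE.UNI
import Pool.Agent.H81.DE.HOE
import Pool.Agent.H81.DE.SUM

/-!
# The conditional entropy decrement argument, without hypotheses (MP_c59857_nt)
-/

set_option autoImplicit false

namespace Pool.Agent.H93.DE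

theorem sum' : T_SUM :=
  Pool.Agent.H81.DE.pf_SUM Pool.Agent.H46.DE.pf_UNI
    (Pool.Agent.H46.DE.pf_DCR Pool.Agent.H46.DE.pf_UNI)

theorem bad : T_BAD :=
  Pool.Agent.H62.DE.pf_BAD Pool.Agent.H46.DE.pf_UNI Pool.Agent.H94.DE.pf_EVT
    Pool.Agent.H81.DE.pf_HOE

theorem cyc : T_CYC :=
  Pool.Agent.H94.DE.pf_CYC Pool.Agent.H93.DE.pf_PIL sum' bad Pool.Agent.H94.DE.pf_CRD

theorem dec : T_DEC := Pool.Agent.H62.DE.pf_DEC cyc

end Pool.Agent.H93.DE
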