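import Pool.Agent.H18.MR.Entropy

/-!
# Decoupling of a cell field from the residues modulo the primes of an octave (MP_c59857_nt)

Definitions for the conditional entropy decrement argument on the cyclic group `ZMod N`, and for
the form over the integers with logarithmic weights.
-/

set_option autoImplicit false

namespace Pool.Agent.H93.DE

open Finset Pool.Agent.H18.MR

open Classical in
/-- The uniform probability on `ZMod N`. -/
noncomputable def unif (N : ℕ) [NeZero N] : FAP (ZMod N) where
  P A := ((univ.filter (fun n => n ∈ A)).card : ℝ) / N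
  nonneg A := by positivity
  add A B h := by
    rw [← add_div, ← Nat.cast_add, ← Finset.card_union_of_disjoint]
    · congr 2
      congr 1
      ext n
      simp
    · rw [Finset.disjoint_left]
      intro n h1 h2
      exact (Set.disjoint_left.1 h) (by simpa using h1) (by simpa using h2)
  univ := by
    have : (N : ℝ) ≠ 0 := by exact_mod_cast NeZero.ne N
    simp [ZMod.card, this]

/-- The primes of the octave `(2 ^ m, 2 ^ (m + 1)]`. -/
def oct (m : ℕ) : Finset ℕ := (Finset.Ioc (2 ^ m) (2 ^ (m + 1))).filter Nat.Prime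

/-- The product of the primes of an octave. -/
def pr (m : ℕ) : ℕ := ∏ p ∈ oct m, p

/-- The word of length `L` of the field `x` at `n`. -/
def wd {γ : Type} {N : ℕ} (x : ZMod N → γ) (L : ℕ) (n : ZMod N) : Fin L → γ :=
  fun t => x (n + ((t : ℕ) : ZMod N))

/-- The residue modulo `M`. -/
def rs (N M : ℕ) (n : ZMod N) : ZMod M := (n.val : ZMod M)

/-- The entropy of the word of length `L` given the residue modulo `M`. -/
noncomputable def hc {γ : Type} [Fintype γ] [DecidableEq γ] {N : ℕ} [NeZero N] (x : ZMod N → γ)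
    (L M : ℕ) : ℝ :=
  if h : M = 0 then 0 else
    haveI : NeZero M := ⟨h⟩
    ent (unif N) (fun n => (wd x L n, rs N M n)) - Real.log M

/-- The mutual information of (word of length `L`, residue modulo `M`) and the residue
modulo `P`. -/
noncomputable def info {γ : Type} [Fintype γ] [DecidableEq γ] {N : ℕ} [NeZero N] (x : ZMod N → γ)
    (L M P : ℕ) : ℝ :=
  if h : M = 0 then 0 else if h' : P = 0 then 0 else
    haveI : NeZero M := ⟨h⟩
    haveI : NeZero P := ⟨h'⟩
    mi (unif N) (fun n => (wd x L n, rs N M n)) (fun n => rs N P n)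

/-- The cell field: the symbol of the cell of length `S` of `n`, and the place in the cell. -/
def fld {A : ℕ} (S : ℕ) [NeZero S] (c : ℕ → Fin A) (n : ℕ) : Fin A × Fin S :=
  (c (n / S), Fin.ofNat S n)

/-- The statistic: the mean over the primes of the octave and over `j < K 2 ^ m` of
`(p 1_(p | n + j) - 1) g(p, j, w)`. -/
noncomputable def stat {γ : Type} (K m : ℕ) (g : ℕ → ℕ → (Fin (2 * K * 2 ^ m) → γ) → ℝ) (n : ℕ)
    (w : Fin (2 * K * 2 ^ m) → γ) : ℝ :=
  (∑ p ∈ oct m, ∑ j ∈ range (K * 2 ^ m), ((if p ∣ n + j then (p : ℝ) else 0) - 1) * g p j w) /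
    ((oct m).card * (K * 2 ^ m))

/-- `n` is bad for the octave `m` (cyclic form). -/
def BadZ {γ : Type} {N : ℕ} (x : ZMod N → γ) (ε : ℝ) (K D m : ℕ)
    (G : Fin (2 ^ (D * m)) → ℕ → ℕ → (Fin (2 * K * 2 ^ m) → γ) → ℝ) (n : ZMod N) : Prop :=
  ∃ i, ε < |stat K m (G i) n.val (wd x (2 * K * 2 ^ m) n)|

/-- `n` is bad for the octave `m` (form over the integers). -/
def Bad {A : ℕ} (S : ℕ) [NeZero S] (c : ℕ → Fin A) (ε : ℝ) (K D m : ℕ)
    (G : Fin (2 ^ (D * m)) → ℕ → ℕ → (Fin (2 * K * 2 ^ m) → Fin A × Fin S) → ℝ) (n : ℕ) : Prop :=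
  ∃ i, ε < |stat K m (G i) n (fun t => fld S c (n + (t : ℕ)))|

end Pool.Agent.H93.DE
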